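import Pool.Agent.Y987.SZ.Gen4

set_option autoImplicit false

/-!
# Almost primes and progressions in the two Oppermann intervals

For all large `n` both `[n² - n, n²]` and `[n², n² + n]` contain `≫ n / log n` integers with at most four
prime factors, all larger than `n ^ (12 / 25)`; among them, and in every dense set of rough integers or of
primes of one of the intervals, almost all elements lie in `k`-term progressions with a difference bounded
by a power of `log n`.
-/

namespace Pool.Agent.Results.MP_1e9cc8_nt.AlmostPrimeProgressions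

/-- `m` has at most four prime factors (with multiplicity), all larger than `n ^ (12 / 25)`. -/
def P4 (n m : ℕ) : Prop :=
  m.primeFactorsList.length ≤ 4 ∧ ∀ p : ℕ, p.Prime → p ∣ m → (n : ℝ) ^ (12 / 25 : ℝ) < p

/-- `m` is a term of a progression of `k` terms of `S` with a difference `d`, `1 ≤ d ≤ L`. -/
def InProgression (k : ℕ) (L : ℝ) (S : Set ℕ) (m : ℕ) : Prop :=
  ∃ a d : ℕ, 1 ≤ d ∧ (d : ℝ) ≤ L ∧ (∀ j < k, a + j * d ∈ S) ∧ ∃ j < k, m = a + j * d

open Pool.Agent.Y987.SZ

/-- the two Oppermann intervals -/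
lemma interval {n : ℕ} (hn : 2 ≤ n) {I : Set ℕ}
    (hI : I = Set.Icc (n ^ 2 - n) (n ^ 2) ∨ I = Set.Icc (n ^ 2) (n ^ 2 + n)) :
    ∃ A : ℕ, (∀ m, m ∈ I ↔ A < m ∧ m ≤ A + (n + 1)) ∧ A + (n + 1) ≤ (n + 1) ^ 2 := by
  have h2 : 2 * n ≤ n ^ 2 := by nlinarith
  rcases hI with rfl | rfl
  · refine ⟨n ^ 2 - n - 1, ?_, ?_⟩
    · intro m
      rw [Set.mem_Icc]
      omega
    · have : (n + 1) ^ 2 = n ^ 2 + 2 * n + 1 := by ring
      omega
  · refine ⟨n ^ 2 - 1, ?_, ?_⟩
    · intro m
      rw [Set.mem_Icc]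
      omega
    · have : (n + 1) ^ 2 = n ^ 2 + 2 * n + 1 := by ring
      omega

/-- **Almost primes and narrow progressions in the Oppermann intervals.** -/
theorem result : ∃ c : ℝ, 0 < c ∧ ∀ k : ℕ, ∀ κ ε : ℝ, 0 < κ → 0 < ε → ∃ B n₀ : ℕ,
    ∀ n : ℕ, n₀ ≤ n → ∀ I : Set ℕ,
      (I = Set.Icc (n ^ 2 - n) (n ^ 2) ∨ I = Set.Icc (n ^ 2) (n ^ 2 + n)) →
      c * (n / Real.log n) ≤ ({m ∈ I | P4 n m}.ncard : ℝ) ∧
      (∃ a d : ℕ, 1 ≤ d ∧ (d : ℝ) ≤ Real.log n ^ B ∧ ∀ j < k, a + j * d ∈ I ∧ P4 n (a + j * d)) ∧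
      ∀ S ⊆ I, (∀ m ∈ S, ∀ p : ℕ, p.Prime → p ∣ m → (n : ℝ) ^ κ < p) →
        ({m ∈ S | ¬ InProgression (k + 1) (Real.log n ^ B) S m}.ncard : ℝ) ≤
          ε * (n / Real.log n) := by
  classical
  obtain ⟨c, X₀, hc, hcnt⟩ := cnt4
  refine ⟨c, hc, ?_⟩
  -- the hereditary statement
  have key : ∀ k : ℕ, ∀ κ ε : ℝ, 0 < κ → 0 < ε → ∃ B n₀ : ℕ,
      ∀ n : ℕ, n₀ ≤ n → ∀ I : Set ℕ,
      (I = Set.Icc (n ^ 2 - n) (n ^ 2) ∨ I = Set.Icc (n ^ 2) (n ^ 2 + n)) →
      ∀ S ⊆ I, (∀ m ∈ S, ∀ p : ℕ, p.Prime → p ∣ m → (n : ℝ) ^ κ < p) →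
        ({m ∈ S | ¬ InProgression (k + 1) (Real.log n ^ B) S m}.ncard : ℝ) ≤
          ε * (n / Real.log n) := by
    intro k κ ε hκ hε
    obtain ⟨B, X₁, h⟩ := her4 (k + 1) (by omega) (min κ 1 / 2) (ε / 2) (by positivity)
      (by have := min_le_right κ 1; linarith) (by positivity)
    refine ⟨2 * B, max X₁ 8, ?_⟩
    intro n hn I hI S hSI hS
    have hn8 : 8 ≤ n := (le_max_right _ _).trans hn
    have hnr : (8 : ℝ) ≤ n := by exact_mod_cast hn8
    obtain ⟨A, hA1, hA2⟩ := interval (by omega) hI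
    have hfin : I.Finite := by
      rcases hI with rfl | rfl
      · exact Set.finite_Icc _ _
      · exact Set.finite_Icc _ _
    have hSfin : S.Finite := hfin.subset hSI
    have hlog2 : 2 ≤ Real.log n := by
      have h1 : Real.log 8 ≤ Real.log n := Real.log_le_log (by norm_num) hnr
      have h2 : Real.log 8 = 3 * Real.log 2 := by
        rw [show (8 : ℝ) = 2 ^ 3 by norm_num, Real.log_pow]
        norm_num
      have := Real.log_two_gt_d9
      linarith
    have hlogX : Real.log ((n + 1 : ℕ) : ℝ) ≤ Real.log n ^ 2 := by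
      have h1 : ((n + 1 : ℕ) : ℝ) ≤ (n : ℝ) ^ 2 := by
        push_cast
        nlinarith
      have h2 := Real.log_le_log (by positivity) h1
      rw [Real.log_pow] at h2
      push_cast at h2 ⊢
      nlinarith
    have hlogX0 : 0 ≤ Real.log ((n + 1 : ℕ) : ℝ) := Real.log_nonneg (by
      push_cast
      linarith)
    have h1 := h (n + 1) A (by have := le_max_left X₁ 8; omega) hSfin.toFinset
      (by
        intro m hm
        rw [Set.Finite.mem_toFinset] at hm
        rw [Finset.mem_Ioc]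
        exact (hA1 m).1 (hSI hm))
      (by
        intro m hm p hp hpm
        rw [Set.Finite.mem_toFinset] at hm
        refine lt_of_le_of_lt ?_ (hS m hm p hp hpm)
        have e1 : ((n + 1 : ℕ) : ℝ) ≤ (n : ℝ) ^ 2 := by
          push_cast
          nlinarith
        have e0 : 0 ≤ min κ 1 / 2 := by positivity
        calc ((n + 1 : ℕ) : ℝ) ^ (min κ 1 / 2) ≤ ((n : ℝ) ^ 2) ^ (min κ 1 / 2) :=
              Real.rpow_le_rpow (by positivity) e1 e0
          _ = (n : ℝ) ^ (min κ 1) := by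
              rw [← Real.rpow_natCast, ← Real.rpow_mul (by linarith)]
              congr 1
              push_cast
              ring
          _ ≤ (n : ℝ) ^ κ := Real.rpow_le_rpow_of_exponent_le (by linarith) (min_le_left _ _))
    have h2 : ({m ∈ S | ¬ InProgression (k + 1) (Real.log n ^ (2 * B)) S m}.ncard : ℝ) ≤
        (Set.ncard {m | m ∈ hSfin.toFinset ∧
          ¬ InAP (k + 1) (Real.log ((n + 1 : ℕ) : ℝ) ^ B) hSfin.toFinset m} : ℝ) := by
      rw [Nat.cast_le]
      apply Set.ncard_le_ncard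
      · intro m hm
        refine ⟨(Set.Finite.mem_toFinset _).2 hm.1, ?_⟩
        intro hAP
        apply hm.2
        obtain ⟨a, d, i1, i2, i3, i4⟩ := hAP
        refine ⟨a, d, i1, i2.trans ?_, fun j hj => (Set.Finite.mem_toFinset _).1 (i3 j hj), i4⟩
        rw [pow_mul]
        exact pow_le_pow_left₀ hlogX0 hlogX B
      · exact hSfin.subset (fun m hm => (Set.Finite.mem_toFinset _).1 hm.1)
    refine h2.trans (h1.trans ?_)
    have h3 : ((n + 1 : ℕ) : ℝ) / Real.log ((n + 1 : ℕ) : ℝ) ≤ 2 * (n / Real.log n) := by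
      have e1 : Real.log n ≤ Real.log ((n + 1 : ℕ) : ℝ) := Real.log_le_log (by linarith) (by
        push_cast
        linarith)
      have e2 : (0 : ℝ) < Real.log n := by linarith
      calc ((n + 1 : ℕ) : ℝ) / Real.log ((n + 1 : ℕ) : ℝ) ≤ ((n + 1 : ℕ) : ℝ) / Real.log n :=
            div_le_div_of_nonneg_left (by positivity) e2 e1
        _ ≤ (2 * n) / Real.log n := by
            apply div_le_div_of_nonneg_right _ e2.le
            push_cast
            linarith
        _ = 2 * (n / Real.log n) := by ring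
    calc ε / 2 * (((n + 1 : ℕ) : ℝ) / Real.log ((n + 1 : ℕ) : ℝ)) ≤ ε / 2 * (2 * (n / Real.log n)) :=
          mul_le_mul_of_nonneg_left h3 (by positivity)
      _ = ε * (n / Real.log n) := by ring
  -- the count
  have count : ∃ n₀ : ℕ, ∀ n : ℕ, n₀ ≤ n → ∀ I : Set ℕ,
      (I = Set.Icc (n ^ 2 - n) (n ^ 2) ∨ I = Set.Icc (n ^ 2) (n ^ 2 + n)) →
      c * (n / Real.log n) ≤ ({m ∈ I | P4 n m}.ncard : ℝ) := by
    refine ⟨max X₀ 3, ?_⟩
    intro n hn I hI
    have hn3 : 3 ≤ n := (le_max_right _ _).trans hn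
    have hnr : (3 : ℝ) ≤ n := by exact_mod_cast hn3
    obtain ⟨A, hA1, hA2⟩ := interval (by omega) hI
    have hfin : I.Finite := by
      rcases hI with rfl | rfl
      · exact Set.finite_Icc _ _
      · exact Set.finite_Icc _ _
    have h1 := hcnt (n + 1) A (by have := le_max_left X₀ 3; omega) (by
      calc (A + (n + 1)) ^ 5 ≤ ((n + 1) ^ 2) ^ 5 := Nat.pow_le_pow_left hA2 5
        _ = (n + 1) ^ 10 := by ring
        _ < (n + 1) ^ 12 := Nat.pow_lt_pow_right (by omega) (by norm_num))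
    have e2 : (0 : ℝ) < Real.log n := Real.log_pos (by linarith)
    have h3 : (n : ℝ) / Real.log n ≤ ((n + 1 : ℕ) : ℝ) / Real.log ((n + 1 : ℕ) : ℝ) := by
      -- `x / log x` is increasing for `x ≥ e`
      have e1 : Real.log ((n + 1 : ℕ) : ℝ) ≤ Real.log n + 1 / n := by
        have : ((n + 1 : ℕ) : ℝ) = n * (1 + 1 / n) := by
          push_cast
          field_simp
        rw [this, Real.log_mul (by positivity) (by positivity)]
        have := Real.log_le_sub_one_of_pos (show (0 : ℝ) < 1 + 1 / n by positivity)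
        linarith
      have e3 : 1 ≤ Real.log n := by
        rw [Real.le_log_iff_exp_le (by linarith)]
        have := Real.exp_one_lt_d9
        linarith
      have e4 : (0 : ℝ) < Real.log ((n + 1 : ℕ) : ℝ) := Real.log_pos (by
        push_cast
        linarith)
      rw [div_le_div_iff₀ e2 e4]
      calc (n : ℝ) * Real.log ((n + 1 : ℕ) : ℝ) ≤ n * (Real.log n + 1 / n) :=
            mul_le_mul_of_nonneg_left e1 (by positivity)
        _ = n * Real.log n + 1 := by
            field_simp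
        _ ≤ n * Real.log n + Real.log n := by linarith
        _ = ((n + 1 : ℕ) : ℝ) * Real.log n := by
            push_cast
            ring
    refine le_trans (mul_le_mul_of_nonneg_left h3 hc.le) (h1.trans ?_)
    rw [Nat.cast_le]
    apply Set.ncard_le_ncard
    · intro m hm
      refine ⟨(hA1 m).2 ⟨hm.1, hm.2.1⟩, hm.2.2.1, ?_⟩
      intro p hp hpm
      refine lt_of_le_of_lt ?_ (hm.2.2.2 p hp hpm)
      apply Real.rpow_le_rpow (by positivity) _ (by norm_num)
      push_cast
      linarith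
    · exact hfin.subset (fun m hm => hm.1)
  intro k κ ε hκ hε
  obtain ⟨n₁, hn₁⟩ := count
  obtain ⟨B₁, n₂, h₂⟩ := key k κ ε hκ hε
  obtain ⟨B₂, n₃, h₃⟩ := key k (12 / 25) (c / 2) (by norm_num) (by positivity)
  refine ⟨max B₁ B₂, max (max n₁ 3) (max n₂ n₃), ?_⟩
  intro n hn I hI
  have g1 : n₁ ≤ n := (le_max_left _ _).trans ((le_max_left _ _).trans hn)
  have g0 : 3 ≤ n := (le_max_right _ _).trans ((le_max_left _ _).trans hn)
  have g2 : n₂ ≤ n := (le_max_left _ _).trans ((le_max_right _ _).trans hn)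
  have g3 : n₃ ≤ n := (le_max_right _ _).trans ((le_max_right _ _).trans hn)
  have hnr : (3 : ℝ) ≤ n := by exact_mod_cast g0
  have hlog1 : 1 ≤ Real.log n := by
    rw [Real.le_log_iff_exp_le (by linarith)]
    have := Real.exp_one_lt_d9
    linarith
  have hfin : I.Finite := by
    rcases hI with rfl | rfl
    · exact Set.finite_Icc _ _
    · exact Set.finite_Icc _ _
  have hB : ∀ B, B ≤ max B₁ B₂ → Real.log n ^ B ≤ Real.log n ^ max B₁ B₂ :=
    fun B hB => pow_le_pow_right₀ hlog1 hB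
  have c1 := hn₁ n g1 I hI
  refine ⟨c1, ?_, ?_⟩
  · have c2 := h₃ n g3 I hI {m ∈ I | P4 n m} (fun m hm => hm.1)
      (fun m hm p hp hpm => by
        have := hm.2.2 p hp hpm
        exact this)
    have hpos : 0 < (n : ℝ) / Real.log n := by positivity
    obtain ⟨m, hm, hAP⟩ : ∃ m ∈ {m ∈ I | P4 n m},
        InProgression (k + 1) (Real.log n ^ B₂) {m ∈ I | P4 n m} m := by
      by_contra hcon
      push Not at hcon
      have e1 : {m ∈ {m ∈ I | P4 n m} | ¬ InProgression (k + 1) (Real.log n ^ B₂) {m ∈ I | P4 n m} m} =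
          {m ∈ I | P4 n m} := by
        ext m
        constructor
        · intro h
          exact h.1
        · intro h
          exact ⟨h, hcon m h⟩
      rw [e1] at c2
      have : c * ((n : ℝ) / Real.log n) ≤ c / 2 * (n / Real.log n) := c1.trans c2
      nlinarith
    obtain ⟨a, d, i1, i2, i3, _⟩ := hAP
    exact ⟨a, d, i1, i2.trans (hB _ (le_max_right _ _)), fun j hj => i3 j (by omega)⟩
  · intro S hSI hS
    refine le_trans ?_ (h₂ n g2 I hI S hSI hS)
    rw [Nat.cast_le]
    apply Set.ncard_le_ncard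
    · intro m hm
      refine ⟨hm.1, ?_⟩
      intro hAP
      apply hm.2
      obtain ⟨a, d, i1, i2, i3⟩ := hAP
      exact ⟨a, d, i1, i2.trans (hB _ (le_max_left _ _)), i3⟩
    · exact (hfin.subset hSI).subset (fun m hm => hm.1)

end Pool.Agent.Results.MP_1e9cc8_nt.AlmostPrimeProgressions
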