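import Pool.Agent.Y816.PD.UniJ

set_option autoImplicit false

/-!
# Clusters of `k` almost primes with restricted digits in the Oppermann intervals

For every large `n` and every admissible `H` of `k` integers the `m` for which all `m + h`, `h ∈ H`, lie in
`[n ^ 2 - n, n ^ 2]` (or in `[n ^ 2, n ^ 2 + n]`), and whose `i`-th digit in base `b` belongs to an arbitrary set
`A i` for all `i < K`, are considered; `K` is the integer part of `log_b (n / 3)`.
-/

namespace Pool.Agent.Results.MP_1e9cc8_nt.RestrictedDigits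

open Finset Filter
open Pool.Agent.Y816.PD (NA DC AT PT)

/-- The integers of `[n ^ 2 - n, n ^ 2]`. -/
def Lo (n : ℕ) : Set ℕ := {m | n ^ 2 - n ≤ m ∧ m ≤ n ^ 2}

/-- The integers of `[n ^ 2, n ^ 2 + n]`. -/
def Hi (n : ℕ) : Set ℕ := {m | n ^ 2 ≤ m ∧ m ≤ n ^ 2 + n}

/-- **Clusters of `k` almost primes with restricted digits in both Oppermann intervals.** -/
theorem result (H : Finset ℕ) (hH : ∀ p : ℕ, p.Prime → ∃ m : ℕ, ∀ h ∈ H, ¬ p ∣ m + h) (k : ℕ)
    (hk : H.card = k) (hk1 : 1 ≤ k) (I : ℕ → Set ℕ) (hI : I = Lo ∨ I = Hi) :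
    ∃ c : ℝ, 0 < c ∧ ∃ r₀ : ℕ, 2 ≤ r₀ ∧ ∀ r : ℕ, r₀ ≤ r → ∀ b : ℕ, 2 ≤ b → ∃ κ C : ℝ, 0 < κ ∧ 0 < C ∧
      ∀ᶠ n : ℕ in atTop, ∀ K : ℕ, K = Nat.log b (n / 3) →
        ∀ A : ℕ → Finset ℕ, (∀ i < K, A i ⊆ range b) → (b : ℝ) ^ K ≤ Real.exp (c * K) * NA K A →
        ((∃ d ∈ A 0, ∀ h ∈ H, (d + h).Coprime b) →
          κ * NA K A / (K : ℝ) ^ k ≤ DC b K A (AT H (I n) r (b ^ K))) ∧
        (DC b K A (PT H (I n)) : ℝ) ≤ C * NA K A / (K : ℝ) ^ k := by
  rcases hI with rfl | rfl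
  · apply Pool.Agent.Y816.PD.uni_fam atTop Lo (fun n => n ^ 2 - n - 1) (fun n => n) (fun n => n + 2) 2 3
      tendsto_id _ _ _ _ H hH k hk hk1
    · filter_upwards [eventually_ge_atTop 1] with n hn
      exact ⟨by omega, by omega⟩
    · exact Eventually.of_forall fun n => (by omega : n ^ 2 - n - 1 ≤ n ^ 2)
    · filter_upwards [eventually_ge_atTop 2] with n hn m h1 h2
      have : n + 1 ≤ n ^ 2 := by nlinarith
      exact ⟨by omega, by omega⟩
    · filter_upwards [eventually_ge_atTop 2] with n hn m hm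
      obtain ⟨h1, h2⟩ := hm
      have : n + 1 ≤ n ^ 2 := by nlinarith
      exact ⟨by omega, by omega⟩
  · apply Pool.Agent.Y816.PD.uni_fam atTop Hi (fun n => n ^ 2 - 1) (fun n => n) (fun n => n + 2) 2 3
      tendsto_id _ _ _ _ H hH k hk hk1
    · filter_upwards [eventually_ge_atTop 1] with n hn
      exact ⟨by omega, by omega⟩
    · exact Eventually.of_forall fun n => (by omega : n ^ 2 - 1 ≤ n ^ 2)
    · filter_upwards [eventually_ge_atTop 2] with n hn m h1 h2
      have : n + 1 ≤ n ^ 2 := by nlinarith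
      exact ⟨by omega, by omega⟩
    · filter_upwards [eventually_ge_atTop 2] with n hn m hm
      obtain ⟨h1, h2⟩ := hm
      have : n + 1 ≤ n ^ 2 := by nlinarith
      exact ⟨by omega, by omega⟩

end Pool.Agent.Results.MP_1e9cc8_nt.RestrictedDigits
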